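import Mathlib

open Set Function

namespace Pool.Agent.Results.MP_59868e_an.CancelFails

section defs
variable {X : Type} [AddCommGroup X]

/-- the translate `S + t` -/
def tr (t : X) (S : Set X) : Set X := (fun x => x + t) '' S

/-- a subalgebra of `P(X)` -/
def IsAlg (𝒜 : Set (Set X)) : Prop :=
  univ ∈ 𝒜 ∧ (∀ S ∈ 𝒜, ∀ T ∈ 𝒜, S ∪ T ∈ 𝒜) ∧ ∀ S ∈ 𝒜, Sᶜ ∈ 𝒜

/-- the sets `P i` partition `A` -/
def Part {Y : Type} {k : ℕ} (P : Fin k → Set Y) (A : Set Y) : Prop :=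
  Pairwise (Disjoint on P) ∧ ⋃ i, P i = A

/-- `A ∼ B` by translations, with pieces in `𝒜` -/
def Equi (𝒜 : Set (Set X)) (A B : Set X) : Prop :=
  ∃ (k : ℕ) (P : Fin k → Set X) (t : Fin k → X), (∀ i, P i ∈ 𝒜 ∧ tr (t i) (P i) ∈ 𝒜) ∧
    Part P A ∧ Part (fun i => tr (t i) (P i)) B

/-- `n[A] = n[B]` -/
def MultEq (𝒜 : Set (Set X)) (n : ℕ) (A B : Set X) : Prop :=
  ∃ (k : ℕ) (C : Fin k → Set X) (j m : Fin k → ℕ) (t : Fin k → X),
    (∀ i, C i ∈ 𝒜 ∧ tr (t i) (C i) ∈ 𝒜) ∧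
    Part (fun i => C i ×ˢ ({j i} : Set ℕ)) (A ×ˢ Iio n) ∧
    Part (fun i => tr (t i) (C i) ×ˢ ({m i} : Set ℕ)) (B ×ˢ Iio n)

/-- cancellation fails in `X`, for a translation invariant algebra and `n = 2` -/
def Fails (X : Type) [AddCommGroup X] : Prop :=
  ∃ 𝒜 : Set (Set X), IsAlg 𝒜 ∧ (∀ S ∈ 𝒜, ∀ t, tr t S ∈ 𝒜) ∧
    ∃ A ∈ 𝒜, ∃ B ∈ 𝒜, MultEq 𝒜 2 A B ∧ ¬ Equi 𝒜 A B

end defs

abbrev G := ℤ × ℤ × ℤ × ℤ

def Rel (R : ℤ) (p q : G) : Prop :=
  p.1 = q.1 ∧ p.2.1 = q.2.1 ∧ (R ≤ p.2.2.1 ∨ p.2.2.1 ≤ -R) ∧ (R ≤ p.2.2.2 ∨ p.2.2.2 ≤ -R) ∧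
    (R ≤ q.2.2.1 ∨ q.2.2.1 ≤ -R) ∧ (R ≤ q.2.2.2 ∨ q.2.2.2 ≤ -R) ∧
    (((0 ≤ p.2.2.1 ↔ 0 ≤ q.2.2.1) ∧ (0 ≤ p.2.2.2 ↔ 0 ≤ q.2.2.2)) ∨
      (R ≤ p.1 ∧ (0 ≤ p.2.2.2 ↔ 0 ≤ q.2.2.2)) ∨
      ((R ≤ p.2.1 ∨ p.2.1 ≤ -R) ∧ (0 ≤ p.2.2.1 ↔ 0 ≤ q.2.2.1)) ∨
      (p.1 ≤ -R ∧ ((0 ≤ p.2.2.1 ↔ 0 ≤ q.2.2.1) ↔ (0 ≤ p.2.2.2 ↔ 0 ≤ q.2.2.2))))

def good (R : ℤ) (S : Set G) : Prop := ∀ p q, Rel R p q → (p ∈ S ↔ q ∈ S)

def Good (S : Set G) : Prop := ∃ R, 1 ≤ R ∧ good R S

lemma good_mono {R R' : ℤ} {S : Set G} (h : good R S) (hR : R ≤ R') : good R' S := by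
  intro p q hpq
  apply h
  unfold Rel at *
  obtain ⟨h1, h2, h3, h4, h5, h6, h7⟩ := hpq
  refine ⟨h1, h2, by omega, by omega, by omega, by omega, ?_⟩
  rcases h7 with h | ⟨h, h'⟩ | ⟨h, h'⟩ | ⟨h, h'⟩
  · exact Or.inl h
  · exact Or.inr (Or.inl ⟨by omega, h'⟩)
  · exact Or.inr (Or.inr (Or.inl ⟨by omega, h'⟩))
  · exact Or.inr (Or.inr (Or.inr ⟨by omega, h'⟩))

lemma Good.union {S T : Set G} (hS : Good S) (hT : Good T) : Good (S ∪ T) := by
  obtain ⟨R, h1, hR⟩ := hS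
  obtain ⟨R', -, hR'⟩ := hT
  refine ⟨max R R', le_max_of_le_left h1, fun p q h => ?_⟩
  simp only [mem_union]
  rw [good_mono hR (le_max_left _ _) p q h, good_mono hR' (le_max_right _ _) p q h]

lemma Good.compl {S : Set G} (hS : Good S) : Good Sᶜ := by
  obtain ⟨R, h1, hR⟩ := hS
  exact ⟨R, h1, fun p q h => by simp only [mem_compl_iff]; rw [hR p q h]⟩

lemma Good.empty : Good ∅ := ⟨1, le_rfl, fun _ _ _ => Iff.rfl⟩

lemma Good.shift {S : Set G} (hS : Good S) (w : G) : Good {p | w + p ∈ S} := by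
  obtain ⟨R, h1, hR⟩ := hS
  obtain ⟨x, y, a, b⟩ := w
  refine ⟨R + |x| + |y| + |a| + |b|, by
    linarith [abs_nonneg x, abs_nonneg y, abs_nonneg a, abs_nonneg b], fun p q h => hR _ _ ?_⟩
  obtain ⟨p1, p2, p3, p4⟩ := p
  obtain ⟨q1, q2, q3, q4⟩ := q
  have := abs_nonneg x; have := abs_nonneg y; have := abs_nonneg a; have := abs_nonneg b
  have := le_abs_self x; have := le_abs_self y; have := le_abs_self a; have := le_abs_self b
  have := neg_abs_le x; have := neg_abs_le y; have := neg_abs_le a; have := neg_abs_le b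
  unfold Rel at *
  simp only [Prod.mk_add_mk] at *
  generalize |x| = X at *
  generalize |y| = Y at *
  generalize |a| = A at *
  generalize |b| = B at *
  obtain ⟨h1, h2, h3, h4, h5, h6, h7⟩ := h
  have e1 : 0 ≤ a + p3 ↔ 0 ≤ p3 := by omega
  have e2 : 0 ≤ a + q3 ↔ 0 ≤ q3 := by omega
  have e3 : 0 ≤ b + p4 ↔ 0 ≤ p4 := by omega
  have e4 : 0 ≤ b + q4 ↔ 0 ≤ q4 := by omega
  rw [e1, e2, e3, e4]
  refine ⟨by omega, by omega, by omega, by omega, by omega, by omega, ?_⟩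
  rcases h7 with h | ⟨h, h'⟩ | ⟨h, h'⟩ | ⟨h, h'⟩
  · exact Or.inl h
  · exact Or.inr (Or.inl ⟨by omega, h'⟩)
  · exact Or.inr (Or.inr (Or.inl ⟨by omega, h'⟩))
  · exact Or.inr (Or.inr (Or.inr ⟨by omega, h'⟩))

def lim (S : Set G) (v : ℤ × ℤ) (σ τ : ℤ) : Prop :=
  ∃ R : ℤ, ∀ a b, R ≤ σ * a → R ≤ τ * b → (v.1, v.2, a, b) ∈ S

lemma lim_iff {R : ℤ} {S : Set G} (h1 : 1 ≤ R) (h : good R S) (v : ℤ × ℤ) {σ τ : ℤ}
    (hσ : σ = 1 ∨ σ = -1) (hτ : τ = 1 ∨ τ = -1) :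
    lim S v σ τ ↔ (v.1, v.2, σ * R, τ * R) ∈ S := by
  constructor
  · rintro ⟨R', hR'⟩
    have := hR' (σ * max R R') (τ * max R R')
      (by rcases hσ with rfl | rfl <;> simp) (by rcases hτ with rfl | rfl <;> simp)
    refine (h _ _ ?_).1 this
    have := le_max_left R R'
    generalize max R R' = M at *
    unfold Rel
    rcases hσ with rfl | rfl <;> rcases hτ with rfl | rfl <;> simp <;> omega
  · intro h'
    refine ⟨R, fun a b ha hb => (h _ _ ?_).1 h'⟩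
    unfold Rel
    rcases hσ with rfl | rfl <;> rcases hτ with rfl | rfl <;> simp at ha hb ⊢ <;> omega

open Classical in
noncomputable def ind (P : Prop) : ZMod 2 := if P then 1 else 0

noncomputable def f (S : Set G) (v : ℤ × ℤ) : ZMod 2 :=
  ind (lim S v 1 1) + ind (lim S v 1 (-1)) + ind (lim S v (-1) 1) + ind (lim S v (-1) (-1))

noncomputable def φ (S : Set G) : ZMod 2 := ∑ᶠ v, f S v

lemma f_eq {R : ℤ} {S : Set G} (h1 : 1 ≤ R) (h : good R S) (v : ℤ × ℤ) :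
    f S v = ind ((v.1, v.2, R, R) ∈ S) + ind ((v.1, v.2, R, -R) ∈ S) +
      ind ((v.1, v.2, -R, R) ∈ S) + ind ((v.1, v.2, -R, -R) ∈ S) := by
  unfold f
  rw [lim_iff h1 h v (Or.inl rfl) (Or.inl rfl), lim_iff h1 h v (Or.inl rfl) (Or.inr rfl),
    lim_iff h1 h v (Or.inr rfl) (Or.inl rfl), lim_iff h1 h v (Or.inr rfl) (Or.inr rfl)]
  simp

lemma two0 (a : ZMod 2) : a + a = 0 := by
  revert a; decide

lemma f_fin {S : Set G} (hS : Good S) : (support (f S)).Finite := by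
  obtain ⟨R, h1, h⟩ := hS
  refine ((Set.finite_Icc (-R) R).prod (Set.finite_Icc (-R) R)).subset fun v hv => ?_
  by_contra hc
  apply hv
  rw [f_eq h1 h]
  obtain ⟨x, y⟩ := v
  simp only [mem_prod, mem_Icc] at hc
  have hc' : R ≤ x ∨ (R ≤ y ∨ y ≤ -R) ∨ x ≤ -R := by omega
  rcases hc' with hc' | hc' | hc'
  · rw [h (x, y, R, R) (x, y, -R, R) (by unfold Rel; simp; omega),
      h (x, y, R, -R) (x, y, -R, -R) (by unfold Rel; simp; omega)]
    linear_combination two0 (ind ((x, y, -R, R) ∈ S)) + two0 (ind ((x, y, -R, -R) ∈ S))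
  · rw [h (x, y, R, R) (x, y, R, -R) (by unfold Rel; simp; omega),
      h (x, y, -R, R) (x, y, -R, -R) (by unfold Rel; simp; omega)]
    linear_combination two0 (ind ((x, y, R, -R) ∈ S)) + two0 (ind ((x, y, -R, -R) ∈ S))
  · rw [h (x, y, R, R) (x, y, -R, -R) (by unfold Rel; simp; omega),
      h (x, y, R, -R) (x, y, -R, R) (by unfold Rel; simp; omega)]
    linear_combination two0 (ind ((x, y, -R, R) ∈ S)) + two0 (ind ((x, y, -R, -R) ∈ S))

lemma ind_union {S T : Set G} (hd : Disjoint S T) (p : G) :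
    ind (p ∈ S ∪ T) = ind (p ∈ S) + ind (p ∈ T) := by
  unfold ind
  by_cases hS : p ∈ S
  · have hT : p ∉ T := fun h => Set.disjoint_left.1 hd hS h
    simp [hS, hT]
  · by_cases hT : p ∈ T <;> simp [hS, hT]

lemma φ_union {S T : Set G} (hS : Good S) (hT : Good T) (hd : Disjoint S T) :
    φ (S ∪ T) = φ S + φ T := by
  unfold φ
  rw [← finsum_add_distrib (f_fin hS) (f_fin hT)]
  congr 1
  funext v
  obtain ⟨R, h1, hR⟩ := hS
  obtain ⟨R', -, hR'⟩ := hT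
  have h1' : 1 ≤ max R R' := le_max_of_le_left h1
  have a1 := good_mono hR (le_max_left R R')
  have a2 := good_mono hR' (le_max_right R R')
  have a3 : good (max R R') (S ∪ T) := fun p q h => by
    simp only [mem_union]; rw [a1 p q h, a2 p q h]
  rw [f_eq h1' a1, f_eq h1' a2, f_eq h1' a3]
  simp only [ind_union hd]
  ring

lemma φ_empty : φ ∅ = 0 := by
  unfold φ
  apply finsum_eq_zero_of_forall_eq_zero
  intro v
  rw [f_eq le_rfl (fun _ _ _ => Iff.rfl)]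
  simp [ind]

lemma φ_sum {k : ℕ} (Q : Fin k → Set G) (hQ : ∀ i, Good (Q i)) (hd : Pairwise (Disjoint on Q))
    (s : Finset (Fin k)) : Good (⋃ i ∈ s, Q i) ∧ φ (⋃ i ∈ s, Q i) = ∑ i ∈ s, φ (Q i) := by
  induction s using Finset.induction_on with
  | empty => simpa using ⟨Good.empty, φ_empty⟩
  | insert a s ha ih =>
    rw [Finset.set_biUnion_insert, Finset.sum_insert ha]
    refine ⟨(hQ a).union ih.1, ?_⟩
    rw [φ_union (hQ a) ih.1, ih.2]
    simp only [disjoint_iUnion_right]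
    intro i hi
    exact hd (fun e => ha (e ▸ hi))

lemma lim_shift (S : Set G) (w : G) (v : ℤ × ℤ) {σ τ : ℤ} :
    lim {p | w + p ∈ S} v σ τ ↔ lim S ((w.1, w.2.1) + v) σ τ := by
  obtain ⟨x, y, a, b⟩ := w
  constructor
  · rintro ⟨R, hR⟩
    refine ⟨R + |σ * a| + |τ * b|, fun a' b' ha hb => ?_⟩
    have := hR (a' - a) (b' - b)
      (by have := le_abs_self (σ * a); have := abs_nonneg (τ * b); rw [mul_sub]; linarith)
      (by have := le_abs_self (τ * b); have := abs_nonneg (σ * a); rw [mul_sub]; linarith)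
    simpa using this
  · rintro ⟨R, hR⟩
    refine ⟨R + |σ * a| + |τ * b|, fun a' b' ha hb => ?_⟩
    have := hR (a + a') (b + b')
      (by have := neg_abs_le (σ * a); have := abs_nonneg (τ * b); rw [mul_add]; linarith)
      (by have := neg_abs_le (τ * b); have := abs_nonneg (σ * a); rw [mul_add]; linarith)
    simpa using this

lemma φ_shift (S : Set G) (w : G) : φ {p | w + p ∈ S} = φ S := by
  unfold φ
  rw [← finsum_comp_equiv (Equiv.addLeft ((w.1, w.2.1) : ℤ × ℤ)) (f := f S)]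
  congr 1
  funext v
  unfold f
  simp only [lim_shift, Equiv.coe_addLeft]

def Y : Set G := {p | p.2.1 = 0 ∨ (p.1 = 0 ∧ 0 ≤ p.2.1)}
def pt : Set G := {p | p.1 = 0 ∧ p.2.1 = -1 ∧ 0 ≤ p.2.2.1 ∧ 0 ≤ p.2.2.2}
def u : Set G := {p | p.1 = -1 ∧ p.2.1 = 0 ∧ 0 ≤ p.2.2.1 ∧ p.2.2.2 < 0}
def V : Set G := {p | p.1 = 0 ∧ 0 ≤ p.2.1 ∧ 0 ≤ p.2.2.1}
def H : Set G := {p | p.2.1 = 0 ∧ ((0 ≤ p.2.2.2 ∧ (p.2.2.1 < 0 ∨ 0 ≤ p.1)) ∨
  (0 ≤ p.2.2.1 ∧ p.2.2.2 < 0 ∧ p.1 < 0))}

lemma gY : Good Y := ⟨2, by norm_num, fun p q h => by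
  unfold Rel at h; simp only [Y, mem_ofPred_eq]; omega⟩
lemma gpt : Good pt := ⟨2, by norm_num, fun p q h => by
  unfold Rel at h; simp only [pt, mem_ofPred_eq]; omega⟩
lemma gu : Good u := ⟨2, by norm_num, fun p q h => by
  unfold Rel at h; simp only [u, mem_ofPred_eq]; omega⟩
lemma gV : Good V := ⟨2, by norm_num, fun p q h => by
  unfold Rel at h; simp only [V, mem_ofPred_eq]; omega⟩
lemma gH : Good H := ⟨2, by norm_num, fun p q h => by
  unfold Rel at h; simp only [H, mem_ofPred_eq]; omega⟩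

lemma Good.diff {S T : Set G} (hS : Good S) (hT : Good T) : Good (S \ T) := by
  have := (hS.compl.union hT).compl
  rwa [compl_union, compl_compl] at this

lemma φ_pt : φ pt = 1 := by
  obtain ⟨R, h1, hR⟩ := gpt
  unfold φ
  rw [finsum_eq_single _ ((0, -1) : ℤ × ℤ)]
  · rw [f_eq h1 hR]
    have : ¬ R ≤ 0 := by omega
    have : 0 ≤ R := by omega
    simp [ind, pt, *]
  · rintro ⟨x, y⟩ hv
    rw [f_eq h1 hR]
    have : ¬ (x = 0 ∧ y = -1) := fun h => hv (by rw [h.1, h.2])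
    have h2 : ∀ a b, ¬ ((x, y, a, b) ∈ pt) := fun a b h => this ⟨h.1, h.2.1⟩
    simp [ind, h2]

def C : Fin 6 → Set G := ![H \ u, u, pt, Y \ H, V ∪ pt, Y \ V]
def jj : Fin 6 → ℕ := ![0, 0, 0, 0, 1, 1]
def mm : Fin 6 → ℕ := ![0, 1, 0, 0, 1, 1]
def tt : Fin 6 → G := ![(1, 0, 0, 0), (1, 0, 0, 0), (0, 1, 0, 0), 0, (0, 1, 0, 0), 0]

lemma gC (i : Fin 6) : Good (C i) := by
  fin_cases i
  · exact gH.diff gu
  · exact gu
  · exact gpt
  · exact gY.diff gH
  · exact gV.union gpt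
  · exact gY.diff gV

lemma mem_tr {X : Type} [AddCommGroup X] (t : X) (S : Set X) (x : X) : x ∈ tr t S ↔ x - t ∈ S := by
  constructor
  · rintro ⟨y, hy, rfl⟩; simpa using hy
  · intro h; exact ⟨x - t, h, by simp⟩

lemma part1 : Part (fun i => C i ×ˢ ({jj i} : Set ℕ)) ((Y ∪ pt) ×ˢ Iio 2) := by
  constructor
  · intro i j hij
    rw [Function.onFun, Set.disjoint_left]
    rintro ⟨⟨x, y, a, b⟩, l⟩
    fin_cases i <;> fin_cases j <;> first | exact absurd rfl hij | skip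
    all_goals
      simp [C, jj, Y, pt, u, V, H]
      try omega
  · ext ⟨⟨x, y, a, b⟩, l⟩
    simp [Fin.exists_fin_succ, C, jj, Y, pt, u, V, H]
    omega

lemma part2 : Part (fun i => tr (tt i) (C i) ×ˢ ({mm i} : Set ℕ)) (Y ×ˢ Iio 2) := by
  constructor
  · intro i j hij
    rw [Function.onFun, Set.disjoint_left]
    rintro ⟨⟨x, y, a, b⟩, l⟩
    fin_cases i <;> fin_cases j <;> first | exact absurd rfl hij | skip
    all_goals
      simp [mem_tr, C, mm, tt, Y, pt, u, V, H]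
      try omega
  · ext ⟨⟨x, y, a, b⟩, l⟩
    simp [mem_tr, Fin.exists_fin_succ, C, mm, tt, Y, pt, u, V, H]
    omega

lemma part_map {Y Z : Type} {k : ℕ} {P : Fin k → Set Y} {A : Set Y} (h : Part P A) {g : Y → Z}
    (hg : Injective g) : Part (fun i => g '' P i) (g '' A) :=
  ⟨fun _ _ hij => (Set.disjoint_image_iff hg).2 (h.1 hij), by rw [← h.2, image_iUnion]⟩

lemma general (X : Type) [AddCommGroup X] (ι : G →+ X) (hι : Injective ι) : Fails X := by
  let 𝒜 : Set (Set X) := {S | ∀ w, Good {p | w + ι p ∈ S}}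
  have hinv : ∀ S ∈ 𝒜, ∀ t, tr t S ∈ 𝒜 := by
    intro S hS t w
    have := hS (w - t)
    simp only [mem_tr]
    have e : ∀ p, w + ι p - t = w - t + ι p := fun p => by abel
    simpa only [e] using this
  have him : ∀ S, Good S → ι '' S ∈ 𝒜 := by
    intro S hS w
    by_cases hw : ∃ s, ι s = w
    · obtain ⟨s, rfl⟩ := hw
      have : {p | ι s + ι p ∈ ι '' S} = {p | s + p ∈ S} := by
        ext p; simp only [mem_ofPred_eq]; rw [← map_add, hι.mem_set_image]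
      rw [this]; exact hS.shift s
    · have : {p | w + ι p ∈ ι '' S} = ∅ := by
        ext p
        simp only [mem_ofPred_eq, mem_empty_iff_false, iff_false]
        rintro ⟨q, -, hq⟩
        exact hw ⟨q - p, by rw [map_sub, hq]; abel⟩
      rw [this]; exact Good.empty
  have htr : ∀ s S, tr (ι s) (ι '' S) = ι '' tr s S := by
    intro s S
    unfold tr
    rw [image_image, image_image]
    simp
  refine ⟨𝒜, ⟨fun w => ?_, fun S hS T hT w => (hS w).union (hT w), fun S hS w => (hS w).compl⟩,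
    hinv, ι '' (Y ∪ pt), him _ (gY.union gpt), ι '' Y, him _ gY, ?_, ?_⟩
  · simpa using Good.empty.compl
  · refine ⟨6, fun i => ι '' C i, jj, mm, fun i => ι (tt i),
      fun i => ⟨him _ (gC i), hinv _ (him _ (gC i)) _⟩, ?_, ?_⟩
    · have := part_map part1 (g := Prod.map ι id) (hι.prodMap injective_id)
      simpa only [prodMap_image_prod, image_id] using this
    · have := part_map part2 (g := Prod.map ι id) (hι.prodMap injective_id)
      simpa only [prodMap_image_prod, image_id, htr] using this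
  · rintro ⟨k, P, t, hP, ⟨d1, u1⟩, ⟨d2, u2⟩⟩
    have g1 : ∀ i, Good (ι ⁻¹' P i) := fun i => by
      have := (hP i).1 0
      simp only [zero_add] at this
      exact this
    have g2 : ∀ i, Good (ι ⁻¹' tr (t i) (P i)) := fun i => by
      have := (hP i).2 0
      simp only [zero_add] at this
      exact this
    have s1 := (φ_sum _ g1 (fun i j h => (d1 h).preimage ι) Finset.univ).2
    have s2 := (φ_sum _ g2 (fun i j h => (d2 h).preimage ι) Finset.univ).2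
    simp only [Finset.mem_univ, iUnion_true, ← preimage_iUnion] at s1 s2
    rw [u1, hι.preimage_image] at s1
    rw [u2, hι.preimage_image] at s2
    have e : ∀ i, φ (ι ⁻¹' P i) = φ (ι ⁻¹' tr (t i) (P i)) := by
      intro i
      rcases (P i).eq_empty_or_nonempty with h | ⟨x, hx⟩
      · simp [h, tr]
      · have a1 : x ∈ ι '' (Y ∪ pt) := u1 ▸ mem_iUnion.2 ⟨i, hx⟩
        have a2 : x + t i ∈ ι '' Y := u2 ▸ mem_iUnion.2 ⟨i, x, hx, rfl⟩
        obtain ⟨p, -, hp⟩ := a1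
        obtain ⟨q, -, hq⟩ := a2
        have : t i = ι (q - p) := by rw [map_sub, hp, hq]; abel
        rw [← φ_shift (ι ⁻¹' tr (t i) (P i)) (q - p)]
        congr 1
        ext z
        simp only [mem_preimage, mem_ofPred_eq, mem_tr, this, map_add]
        rw [add_sub_cancel_left]
    rw [Finset.sum_congr rfl fun i _ => e i, ← s2, φ_union gY gpt, φ_pt] at s1
    · simp at s1
    · rw [Set.disjoint_left]
      intro p h1 h2
      simp only [Y, pt, mem_ofPred_eq] at h1 h2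
      omega

lemma circle : Fails UnitAddCircle := by
  obtain ⟨t, ht⟩ : ∃ t : ℝ, Transcendental ℤ t :=
    ⟨_, transcendental_liouvilleNumber (le_refl 2)⟩
  let g : G →+ ℝ :=
    { toFun := fun p => p.1 * t + p.2.1 * t ^ 2 + p.2.2.1 * t ^ 3 + p.2.2.2 * t ^ 4
      map_zero' := by simp
      map_add' := fun p q => by simp; ring }
  refine general _ ((QuotientAddGroup.mk' _).comp g) ((injective_iff_map_eq_zero _).2 ?_)
  rintro ⟨x, y, a, b⟩ h
  have h' : ((g (x, y, a, b) : ℝ) : UnitAddCircle) = 0 := h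
  rw [AddCircle.coe_eq_zero_iff] at h'
  obtain ⟨n, hn⟩ := h'
  have hz : (Polynomial.C (-n) + Polynomial.C x * Polynomial.X + Polynomial.C y * Polynomial.X ^ 2 +
      Polynomial.C a * Polynomial.X ^ 3 + Polynomial.C b * Polynomial.X ^ 4 : Polynomial ℤ) = 0 := by
    by_contra hne
    refine ht ⟨_, hne, ?_⟩
    simp only [g, AddMonoidHom.coe_mk, ZeroHom.coe_mk, zsmul_eq_mul, mul_one] at hn
    simp only [map_add, map_mul, map_pow, Polynomial.aeval_C, Polynomial.aeval_X]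
    simp only [eq_intCast]
    push_cast
    linarith
  have c1 := congrArg (fun P => Polynomial.coeff P 1) hz
  have c2 := congrArg (fun P => Polynomial.coeff P 2) hz
  have c3 := congrArg (fun P => Polynomial.coeff P 3) hz
  have c4 := congrArg (fun P => Polynomial.coeff P 4) hz
  simp only [Polynomial.coeff_add, Polynomial.coeff_C_mul, Polynomial.coeff_X_pow,
    Polynomial.coeff_X, Polynomial.coeff_C, Polynomial.coeff_zero] at c1 c2 c3 c4
  norm_num at c1 c2 c3 c4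
  simp [c1, c2, c3, c4]

theorem result : Fails UnitAddCircle ∧
    ∀ (X : Type) [AddCommGroup X] (ι : (ℤ × ℤ × ℤ × ℤ) →+ X), Injective ι → Fails X :=
  ⟨circle, general⟩

end Pool.Agent.Results.MP_59868e_an.CancelFails
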